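import Mathlib

set_option autoImplicit false

/-! Sums modulo `q` over the finite subsets of a set with a permutation of order `q`. -/

namespace Pool.Agent.TH410.KV

open Finset

/-- sums over the fixed points of a permutation of prime power order -/
theorem sum_fixed {α : Type} [Fintype α] [DecidableEq α] (q n : ℕ) [Fact q.Prime]
    (σ : Equiv.Perm α) (hσ : σ ^ (q ^ n) = 1) (f : α → ZMod q) (hf : ∀ x, f (σ x) = f x) :
    ∑ x, f x = ∑ x ∈ univ.filter (fun x => σ x = x), f x := by
  classical
  have key : ∀ v : ZMod q, ((univ.filter (fun x => f x = v)).card : ZMod q) =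
      ((univ.filter (fun x => σ x = x ∧ f x = v)).card : ZMod q) := by
    intro v
    have hσ' : ∀ x : {x // f x = v}, f (σ x.1) = v := fun x => by rw [hf, x.2]
    have hinv : ∀ x, f (σ.symm x) = f x := by
      intro x
      conv_rhs => rw [← σ.apply_symm_apply x, hf]
    let τ : Equiv.Perm {x // f x = v} :=
      { toFun := fun x => ⟨σ x.1, hσ' x⟩
        invFun := fun x => ⟨σ.symm x.1, by rw [hinv, x.2]⟩
        left_inv := fun x => Subtype.ext (σ.symm_apply_apply _)
        right_inv := fun x => Subtype.ext (σ.apply_symm_apply _) }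
    have hpow : ∀ (m : ℕ) (x : {x // f x = v}), ((τ ^ m) x).1 = (σ ^ m) x.1 := by
      intro m
      induction m with
      | zero => intro x; rfl
      | succ m ih =>
        intro x
        rw [pow_succ', pow_succ', Equiv.Perm.mul_apply, Equiv.Perm.mul_apply, ← ih]
        rfl
    have hτ : τ ^ (q ^ n) = 1 := by
      ext x
      rw [hpow, hσ]
      rfl
    have h1 := Equiv.Perm.card_compl_support_modEq (σ := τ) hτ
    rw [← ZMod.natCast_eq_natCast_iff] at h1
    have h2 : (τ.supportᶜ).card = (univ.filter (fun x => σ x = x ∧ f x = v)).card := by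
      refine Finset.card_bij (fun x _ => x.1) ?_ ?_ ?_
      · intro x hx
        rw [mem_compl, Equiv.Perm.notMem_support] at hx
        rw [mem_filter]
        exact ⟨mem_univ _, congrArg Subtype.val hx, x.2⟩
      · intro x _ y _ h
        exact Subtype.ext h
      · intro y hy
        rw [mem_filter] at hy
        refine ⟨⟨y, hy.2.2⟩, ?_, rfl⟩
        rw [mem_compl, Equiv.Perm.notMem_support]
        exact Subtype.ext hy.2.1
    rw [h2, Fintype.card_subtype] at h1
    exact h1.symm
  have h1 : ∀ s : Finset α, ∑ x ∈ s, f x = ∑ v : ZMod q, ((s.filter (fun x => f x = v)).card : ZMod q) * v := by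
    intro s
    have : NeZero q := ⟨(Fact.out : q.Prime).ne_zero⟩
    rw [← Finset.sum_fiberwise s f f]
    refine Finset.sum_congr rfl fun v _ => ?_
    rw [Finset.sum_congr rfl (fun x hx => (mem_filter.1 hx).2), Finset.sum_const, nsmul_eq_mul]
  rw [h1, h1]
  refine Finset.sum_congr rfl fun v _ => ?_
  rw [key v, Finset.filter_filter]

/-- the fibres of an orbit map of a permutation of order dividing 3 are odd -/
theorem odd_fiber {E : Type} [Fintype E] [DecidableEq E] (σ : Equiv.Perm E) (hσ : σ ^ 3 = 1)
    (s : Finset E) (e : E) (hs : ∀ x, x ∈ s ↔ ∃ i : ℕ, x = (σ ^ i) e) : Odd s.card := by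
  have h3 : ∀ x, σ (σ (σ x)) = x := by
    intro x
    have := congrArg (fun τ : Equiv.Perm E => τ x) hσ
    simpa [pow_succ, Equiv.Perm.mul_apply] using this
  have hs' : s = {e, σ e, σ (σ e)} := by
    ext x
    rw [hs]
    constructor
    · rintro ⟨i, rfl⟩
      have h1 : σ ^ i = σ ^ (i % 3) := by
        conv_lhs => rw [← Nat.div_add_mod i 3, pow_add, pow_mul, hσ, one_pow, one_mul]
      rw [h1]
      have h2 := Nat.mod_lt i (show 0 < 3 by norm_num)
      interval_cases i % 3 <;> simp [pow_succ, Equiv.Perm.mul_apply]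
    · intro hx
      simp only [mem_insert, mem_singleton] at hx
      rcases hx with rfl | rfl | rfl
      · exact ⟨0, rfl⟩
      · exact ⟨1, by simp⟩
      · exact ⟨2, by simp [pow_succ, Equiv.Perm.mul_apply]⟩
  rw [hs']
  by_cases h : σ e = e
  · rw [h, h]
    simp
  · have h1 : e ≠ σ e := fun h' => h h'.symm
    have h2 : σ e ≠ σ (σ e) := fun h' => h (σ.injective h').symm
    have h4 : e ≠ σ (σ e) := by
      intro h'
      apply h
      have := congrArg σ h'
      rw [h3] at this
      exact this
    rw [card_insert_of_notMem, card_insert_of_notMem, card_singleton]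
    · decide
    · simpa using h2
    · simp only [mem_insert, mem_singleton, not_or]
      exact ⟨h1, h4⟩

/-- the preimage of a set of orbits -/
def pre {E Ω : Type} [Fintype E] [DecidableEq Ω] (o : E → Ω) (A : Finset Ω) : Finset E :=
  univ.filter (fun e => o e ∈ A)

theorem mem_pre {E Ω : Type} [Fintype E] [DecidableEq Ω] (o : E → Ω) (A : Finset Ω) (e : E) :
    e ∈ pre o A ↔ o e ∈ A := by
  simp [pre]

theorem neg_one_two : (-1 : ZMod 2) = 1 := by decide

/-- signed sums over all subsets reduce to signed sums over sets of orbits -/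
theorem sum_orbits {E Ω : Type} [Fintype E] [DecidableEq E] [Fintype Ω] [DecidableEq Ω]
    (q : ℕ) [Fact q.Prime] (hq : q = 2 ∨ q = 3) (σ : Equiv.Perm E) (hσ : σ ^ q = 1)
    (o : E → Ω) (ho : ∀ e, o (σ e) = o e) (hsurj : Function.Surjective o)
    (htr : ∀ e e', o e = o e' → ∃ i : ℕ, e' = (σ ^ i) e)
    (f : Finset E → ZMod q) (hf : ∀ S, f (S.map σ.toEmbedding) = f S) :
    ∑ S : Finset E, f S * (-1) ^ S.card = ∑ A : Finset Ω, f (pre o A) * (-1) ^ A.card := by
  classical
  let Sg : Equiv.Perm (Finset E) := Equiv.finsetCongr σ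
  have hSg : ∀ S, Sg S = S.map σ.toEmbedding := fun S => rfl
  have hpow : ∀ (m : ℕ) (S : Finset E), (Sg ^ m) S = S.map (σ ^ m).toEmbedding := by
    intro m
    induction m with
    | zero =>
      intro S
      ext x
      rw [mem_map_equiv]
      exact Iff.rfl
    | succ m ih =>
      intro S
      rw [pow_succ', Equiv.Perm.mul_apply, ih, hSg, Finset.map_map, pow_succ']
      rfl
  have h1 : Sg ^ (q ^ 1) = 1 := by
    apply Equiv.ext
    intro S
    rw [pow_one, hpow, hσ]
    ext x
    rw [mem_map_equiv]
    exact Iff.rfl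
  rw [sum_fixed q 1 Sg h1 (fun S => f S * (-1) ^ S.card) (fun S => by
    simp only [hSg, hf, Finset.card_map])]
  have ho' : ∀ (i : ℕ) e, o ((σ ^ i) e) = o e := by
    intro i
    induction i with
    | zero => intro e; rfl
    | succ i ih =>
      intro e
      rw [pow_succ', Equiv.Perm.mul_apply, ho, ih]
  have hfix : ∀ S : Finset E, Sg S = S → ∀ (i : ℕ) e, e ∈ S → (σ ^ i) e ∈ S := by
    intro S hS i
    induction i with
    | zero => intro e he; exact he
    | succ i ih =>
      intro e he
      rw [pow_succ', Equiv.Perm.mul_apply]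
      have h2 : σ ((σ ^ i) e) ∈ S.map σ.toEmbedding := mem_map_of_mem σ.toEmbedding (ih e he)
      rw [hSg] at hS
      rwa [hS] at h2
  refine (Finset.sum_bij (fun (A : Finset Ω) _ => pre o A) ?_ ?_ ?_ ?_).symm
  · intro A _
    rw [mem_filter]
    refine ⟨mem_univ _, ?_⟩
    rw [hSg]
    ext x
    rw [mem_map, mem_pre]
    constructor
    · rintro ⟨y, hy, rfl⟩
      rw [mem_pre] at hy
      change o (σ y) ∈ A
      rwa [ho]
    · intro hx
      refine ⟨σ.symm x, ?_, σ.apply_symm_apply x⟩
      rw [mem_pre, ← ho, σ.apply_symm_apply]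
      exact hx
  · intro A _ B _ h
    ext ω
    obtain ⟨e, rfl⟩ := hsurj ω
    rw [← mem_pre, ← mem_pre, h]
  · intro S hS
    rw [mem_filter] at hS
    refine ⟨S.image o, mem_univ _, ?_⟩
    ext x
    rw [mem_pre, mem_image]
    constructor
    · rintro ⟨y, hy, hyx⟩
      obtain ⟨i, rfl⟩ := htr y x hyx
      exact hfix S hS.2 i y hy
    · intro hx
      exact ⟨x, hx, rfl⟩
  · intro A _
    congr 1
    rcases hq with rfl | rfl
    · have : (-1 : ZMod 2) = 1 := neg_one_two
      rw [this, one_pow, one_pow]
    · have h2 : (pre o A).card = ∑ ω ∈ A, ((pre o A).filter (fun e => o e = ω)).card :=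
        Finset.card_eq_sum_card_fiberwise (fun e he => (mem_pre o A e).1 he)
      rw [h2, ← Finset.prod_pow_eq_pow_sum, Finset.prod_congr rfl (g := fun _ => (-1 : ZMod 3))]
      · rw [Finset.prod_const]
      · intro ω hω
        obtain ⟨e, rfl⟩ := hsurj ω
        refine Odd.neg_one_pow (odd_fiber σ hσ _ e fun x => ?_)
        rw [mem_filter, mem_pre]
        constructor
        · rintro ⟨_, h⟩
          exact htr e x h.symm
        · rintro ⟨i, rfl⟩
          rw [ho' i e]
          exact ⟨hω, rfl⟩

end Pool.Agent.TH410.KV
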