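import Mathlib
import Pool.Agent.H23.L.KV.Ty

set_option autoImplicit false
set_option linter.unusedSectionVars false

/-! The signed number of graphs without a member, and the identity for `q` equal blocks. -/

namespace Pool.Agent.TH410.KV

open Finset Pool.Agent.H98R2.Ev

variable {𝓕 : Fam}

theorem toG_adj {V : Type} [DecidableEq V] (S : Finset (EV V)) (a b : V) :
    (toG S).Adj a b ↔ ∃ h : ¬ (s(a, b) : Sym2 V).IsDiag, (⟨s(a, b), h⟩ : EV V) ∈ S := by
  unfold toG
  rw [SimpleGraph.fromEdgeSet_adj]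
  constructor
  · rintro ⟨h, _⟩; exact h
  · intro h; exact ⟨h, fun hab => h.1 (by rw [hab]; exact Sym2.mk_isDiag_iff.2 rfl)⟩

open Classical in
/-- 0 for a graph which contains a member, 1 otherwise -/
noncomputable def ind (q : ℕ) {V : Type} (τ : V → TY 𝓕) (G : SimpleGraph V) : ZMod q :=
  if Bad τ G then 0 else 1

/-- the signed number of the graphs without a member -/
noncomputable def NN (q : ℕ) {V : Type} [Fintype V] [DecidableEq V] (τ : V → TY 𝓕) : ZMod q :=
  ∑ S : Finset (EV V), ind q τ (toG S) * (-1) ^ S.card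

theorem ind_congr (q : ℕ) {V W : Type} {τ : V → TY 𝓕} {τ' : W → TY 𝓕} {G : SimpleGraph V}
    {H : SimpleGraph W} (h : Bad τ G ↔ Bad τ' H) : ind q τ G = ind q τ' H := by
  unfold ind
  by_cases h1 : Bad τ G
  · rw [if_pos h1, if_pos (h.1 h1)]
  · rw [if_neg h1, if_neg (fun h2 => h1 (h.2 h2))]

theorem bad_map {V W : Type} (e : V ≃ W) (τ : W → TY 𝓕) (G : SimpleGraph V) :
    Bad (fun v => τ (e v)) G ↔ Bad τ (G.map e.toEmbedding) := by
  rw [← bad_iso e]
  have : SimpleGraph.comap e (G.map e.toEmbedding) = G :=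
    SimpleGraph.comap_map_eq e.toEmbedding G
  rw [this]

theorem NN_iso (q : ℕ) {V W : Type} [Fintype V] [DecidableEq V] [Fintype W] [DecidableEq W]
    (e : V ≃ W) (τ : W → TY 𝓕) : NN q (fun v => τ (e v)) = NN q τ := by
  unfold NN
  refine Fintype.sum_equiv (Equiv.finsetCongr (ev15 e)) _ _ fun S => ?_
  rw [Equiv.finsetCongr_apply, card_map, toG_map15]
  congr 1
  exact ind_congr q (bad_map e τ _)

section Swap

variable {W : Type} [Fintype W] [DecidableEq W] (q : ℕ)

/-- the rotation of the equal blocks -/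
def rot : Equiv.Perm (ZMod q ⊕ W) := Equiv.sumCongr (Equiv.addRight 1) (Equiv.refl W)

theorem col_rot (x : ZMod q ⊕ W) : col q (rot q x) = col q x := by
  rcases x with i | w <;> rfl

theorem rot_pow_inl (m : ℕ) (i : ZMod q) :
    ((rot q : Equiv.Perm (ZMod q ⊕ W)) ^ m) (Sum.inl i) = Sum.inl (i + m) := by
  induction m with
  | zero => simp
  | succ m ih =>
    rw [pow_succ', Equiv.Perm.mul_apply, ih]
    change Sum.inl (i + m + 1) = _
    push_cast
    rw [add_assoc]

theorem rot_pow_inr (m : ℕ) (w : W) :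
    ((rot q : Equiv.Perm (ZMod q ⊕ W)) ^ m) (Sum.inr w) = Sum.inr w := by
  induction m with
  | zero => simp
  | succ m ih =>
    rw [pow_succ', Equiv.Perm.mul_apply, ih]
    rfl

/-- the induced permutation of the pairs -/
def rote : Equiv.Perm (EV (ZMod q ⊕ W)) := ev15 (rot q)

theorem rote_pow (m : ℕ) (e : EV (ZMod q ⊕ W)) :
    ((rote q ^ m) e).1 = Sym2.map ((rot q : Equiv.Perm (ZMod q ⊕ W)) ^ m) e.1 := by
  induction m with
  | zero =>
    rw [pow_zero, pow_zero]
    exact (Sym2.map_id' (α := ZMod q ⊕ W) ▸ rfl : e.1 = Sym2.map id e.1)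
  | succ m ih =>
    rw [pow_succ', Equiv.Perm.mul_apply, pow_succ']
    change Sym2.map (rot q) ((rote q ^ m) e).1 = _
    rw [ih, Sym2.map_map]
    rfl

/-- the orbit of a pair -/
def orb (e : EV (ZMod q ⊕ W)) : EV (Option W) ⊕ Unit :=
  if h : (Sym2.map (col q) e.1).IsDiag then Sum.inr () else Sum.inl ⟨_, h⟩

theorem orb_inl (e : EV (ZMod q ⊕ W)) (e' : EV (Option W)) :
    orb q e = Sum.inl e' ↔ Sym2.map (col q) e.1 = e'.1 := by
  unfold orb
  by_cases h : (Sym2.map (col q) e.1).IsDiag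
  · rw [dif_pos h]
    constructor
    · intro h'
      cases h'
    · intro h'
      exact absurd (h' ▸ h) e'.2
  · rw [dif_neg h]
    constructor
    · intro h'
      rw [← Sum.inl_injective h']
    · intro h'
      exact congrArg Sum.inl (Subtype.ext h')

theorem orb_inr (e : EV (ZMod q ⊕ W)) (u : Unit) :
    orb q e = Sum.inr u ↔ (Sym2.map (col q) e.1).IsDiag := by
  unfold orb
  by_cases h : (Sym2.map (col q) e.1).IsDiag
  · rw [dif_pos h]
    exact ⟨fun _ => h, fun _ => rfl⟩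
  · rw [dif_neg h]
    exact ⟨fun h' => (by cases h'), fun h' => absurd h' h⟩

theorem orb_rote (e : EV (ZMod q ⊕ W)) : orb q (rote q e) = orb q e := by
  have key : Sym2.map (col q) (rote q e).1 = Sym2.map (col q) e.1 := by
    change Sym2.map (col q) (Sym2.map (rot q) e.1) = _
    rw [Sym2.map_map]
    congr 1
    funext x
    exact col_rot q x
  rcases h : orb q e with e' | u
  · rw [orb_inl] at h ⊢
    rw [key, h]
  · rw [orb_inr] at h ⊢
    rw [key]
    exact h

theorem tr_aux [NeZero q] (x y x' y' : ZMod q ⊕ W) (hx : col q x = col q x')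
    (hy : col q y = col q y') (hne : col q x ≠ col q y) :
    ∃ m : ℕ, ((rot q : Equiv.Perm (ZMod q ⊕ W)) ^ m) x = x' ∧ ((rot q) ^ m) y = y' := by
  rcases x with i | w <;> rcases x' with i' | w' <;> rcases y with j | v <;>
    rcases y' with j' | v' <;> simp only [col, Sum.elim_inl, Sum.elim_inr, reduceCtorEq,
      ne_eq, not_true_eq_false, Option.some.injEq] at hx hy hne
  · refine ⟨(i' - i).val, ?_, ?_⟩
    · rw [rot_pow_inl, ZMod.natCast_zmod_val]
      congr 1
      ring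
    · rw [rot_pow_inr, hy]
  · refine ⟨(j' - j).val, ?_, ?_⟩
    · rw [rot_pow_inr, hx]
    · rw [rot_pow_inl, ZMod.natCast_zmod_val]
      congr 1
      ring
  · exact ⟨0, by rw [hx]; rfl, by rw [hy]; rfl⟩

theorem dec2 : ∀ i j i' j' : ZMod 2, i ≠ j → i' ≠ j' →
    ∃ k : ZMod 2, (i + k = i' ∧ j + k = j') ∨ (i + k = j' ∧ j + k = i') := by decide

theorem dec3 : ∀ i j i' j' : ZMod 3, i ≠ j → i' ≠ j' →
    ∃ k : ZMod 3, (i + k = i' ∧ j + k = j') ∨ (i + k = j' ∧ j + k = i') := by decide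

theorem inner_of_diag (x y : ZMod q ⊕ W) (hxy : x ≠ y) (h : col q x = col q y) :
    ∃ i j, x = Sum.inl i ∧ y = Sum.inl j ∧ i ≠ j := by
  rcases x with i | w <;> rcases y with j | v <;> simp only [col, Sum.elim_inl, Sum.elim_inr,
    reduceCtorEq, Option.some.injEq] at h
  · exact ⟨i, j, rfl, rfl, fun h' => hxy (by rw [h'])⟩
  · exact absurd (by rw [h]) hxy

theorem orb_tr (hq : q = 2 ∨ q = 3) (e e' : EV (ZMod q ⊕ W)) (h : orb q e = orb q e') :
    ∃ i : ℕ, e' = (rote q ^ i) e := by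
  have : NeZero q := ⟨by rcases hq with rfl | rfl <;> norm_num⟩
  obtain ⟨e, he⟩ := e
  obtain ⟨e', he'⟩ := e'
  suffices h : ∃ i : ℕ, e' = Sym2.map ((rot q : Equiv.Perm (ZMod q ⊕ W)) ^ i) e by
    obtain ⟨i, hi⟩ := h
    exact ⟨i, Subtype.ext (by rw [rote_pow]; exact hi)⟩
  induction e using Sym2.ind with
  | _ x y =>
  induction e' using Sym2.ind with
  | _ x' y' =>
  have hxy : x ≠ y := fun h => he (Sym2.mk_isDiag_iff.2 h)
  have hxy' : x' ≠ y' := fun h => he' (Sym2.mk_isDiag_iff.2 h)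
  rcases h1 : orb q ⟨s(x, y), he⟩ with e2 | u
  · have h2 := h1
    rw [h] at h2
    rw [orb_inl] at h1 h2
    simp only [Sym2.map_mk] at h1 h2
    have h3 := e2.2
    rw [← h1] at h3
    have hne : col q x ≠ col q y := fun h => h3 (Sym2.mk_isDiag_iff.2 h)
    rw [← h2] at h1
    rcases Sym2.eq_iff.1 h1 with ⟨h4, h5⟩ | ⟨h4, h5⟩
    · obtain ⟨m, h6, h7⟩ := tr_aux q x y x' y' h4 h5 hne
      exact ⟨m, by rw [Sym2.map_mk, h6, h7]⟩
    · obtain ⟨m, h6, h7⟩ := tr_aux q x y y' x' h4 h5 hne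
      exact ⟨m, by rw [Sym2.map_mk, h6, h7, Sym2.eq_swap]⟩
  · have h2 := h1
    rw [h] at h2
    rw [orb_inr] at h1 h2
    simp only [Sym2.map_mk, Sym2.mk_isDiag_iff] at h1 h2
    obtain ⟨i, j, rfl, rfl, hij⟩ := inner_of_diag q x y hxy h1
    obtain ⟨i', j', rfl, rfl, hij'⟩ := inner_of_diag q x' y' hxy' h2
    have hk : ∃ k : ZMod q, (i + k = i' ∧ j + k = j') ∨ (i + k = j' ∧ j + k = i') := by
      rcases hq with rfl | rfl
      · exact dec2 i j i' j' hij hij'
      · exact dec3 i j i' j' hij hij'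
    obtain ⟨k, hk⟩ := hk
    refine ⟨k.val, ?_⟩
    rw [Sym2.map_mk, rot_pow_inl, rot_pow_inl, ZMod.natCast_zmod_val]
    rcases hk with ⟨h3, h4⟩ | ⟨h3, h4⟩
    · rw [h3, h4]
    · rw [h3, h4, Sym2.eq_swap]

theorem orb_surj (hq : q = 2 ∨ q = 3) : Function.Surjective (orb (W := W) q) := by
  rintro (⟨e, he⟩ | ⟨⟩)
  · induction e using Sym2.ind with
    | _ a b =>
    have hab : a ≠ b := fun h => he (Sym2.mk_isDiag_iff.2 h)
    let sec : Option W → ZMod q ⊕ W := fun v => v.elim (Sum.inl 0) Sum.inr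
    have hsec : ∀ v, col q (sec v) = v := by
      rintro (_ | w) <;> rfl
    have hne : sec a ≠ sec b := fun h => hab (by rw [← hsec a, ← hsec b, h])
    refine ⟨⟨s(sec a, sec b), fun h => hne (Sym2.mk_isDiag_iff.1 h)⟩, ?_⟩
    rw [orb_inl, Sym2.map_mk, hsec, hsec]
  · have h01 : (0 : ZMod q) ≠ 1 := by
      rcases hq with rfl | rfl <;> decide
    refine ⟨⟨s(Sum.inl 0, Sum.inl 1), fun h => h01 (Sum.inl_injective (Sym2.mk_isDiag_iff.1 h))⟩, ?_⟩
    rw [orb_inr, Sym2.map_mk]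
    exact Sym2.mk_isDiag_iff.2 rfl

theorem rote_q : (rote q : Equiv.Perm (EV (ZMod q ⊕ W))) ^ q = 1 := by
  have hr : (rot q : Equiv.Perm (ZMod q ⊕ W)) ^ q = 1 := by
    apply Equiv.ext
    rintro (i | w)
    · rw [rot_pow_inl, CharP.cast_eq_zero, add_zero]
      rfl
    · rw [rot_pow_inr]
      rfl
  apply Equiv.ext
  intro e
  apply Subtype.ext
  rw [rote_pow, hr]
  exact (Sym2.map_id' (α := ZMod q ⊕ W) ▸ rfl : Sym2.map id e.1 = e.1)

theorem adj_pre0 [NeZero q] (S : Finset (EV (Option W))) (x y : ZMod q ⊕ W) :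
    (toG (pre (orb q) (S.disjSum (∅ : Finset Unit)))).Adj x y ↔
      (toG S).Adj (col q x) (col q y) := by
  rw [toG_adj, toG_adj]
  constructor
  · rintro ⟨h, h1⟩
    rw [mem_pre] at h1
    rcases h2 : orb q ⟨s(x, y), h⟩ with e | u
    · rw [h2, inl_mem_disjSum] at h1
      rw [orb_inl, Sym2.map_mk] at h2
      refine ⟨by rw [h2]; exact e.2, ?_⟩
      convert h1
    · rw [h2] at h1
      simp at h1
  · rintro ⟨h, h1⟩
    have hne : col q x ≠ col q y := fun h' => h (Sym2.mk_isDiag_iff.2 h')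
    have h3 : ¬ (s(x, y) : Sym2 (ZMod q ⊕ W)).IsDiag :=
      fun h' => hne (congrArg _ (Sym2.mk_isDiag_iff.1 h'))
    refine ⟨h3, ?_⟩
    rw [mem_pre, (orb_inl q ⟨s(x, y), h3⟩ ⟨s(col q x, col q y), h⟩).2 (by rw [Sym2.map_mk]),
      inl_mem_disjSum]
    exact h1

theorem adj_pre1 [NeZero q] (S : Finset (EV (Option W))) (x y : ZMod q ⊕ W) :
    (toG (pre (orb q) (S.disjSum ({()} : Finset Unit)))).Adj x y ↔
      (x ≠ y ∧ col q x = none ∧ col q y = none) ∨ (toG S).Adj (col q x) (col q y) := by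
  rw [toG_adj, toG_adj]
  constructor
  · rintro ⟨h, h1⟩
    have hxy : x ≠ y := fun h' => h (Sym2.mk_isDiag_iff.2 h')
    rw [mem_pre] at h1
    rcases h2 : orb q ⟨s(x, y), h⟩ with e | u
    · right
      rw [h2, inl_mem_disjSum] at h1
      rw [orb_inl, Sym2.map_mk] at h2
      refine ⟨by rw [h2]; exact e.2, ?_⟩
      convert h1
    · left
      rw [orb_inr, Sym2.map_mk, Sym2.mk_isDiag_iff] at h2
      obtain ⟨i, j, rfl, rfl, _⟩ := inner_of_diag q x y hxy h2
      exact ⟨hxy, rfl, rfl⟩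
  · rintro (⟨hxy, hx, hy⟩ | ⟨h, h1⟩)
    · refine ⟨fun h' => hxy (Sym2.mk_isDiag_iff.1 h'), ?_⟩
      rw [mem_pre, (orb_inr q _ ()).2 (by
        rw [Sym2.map_mk, Sym2.mk_isDiag_iff, hx, hy]), inr_mem_disjSum]
      exact mem_singleton_self _
    · have hne : col q x ≠ col q y := fun h' => h (Sym2.mk_isDiag_iff.2 h')
      have h3 : ¬ (s(x, y) : Sym2 (ZMod q ⊕ W)).IsDiag :=
        fun h' => hne (congrArg _ (Sym2.mk_isDiag_iff.1 h'))
      refine ⟨h3, ?_⟩
      rw [mem_pre, (orb_inl q ⟨s(x, y), h3⟩ ⟨s(col q x, col q y), h⟩).2 (by rw [Sym2.map_mk]),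
        inl_mem_disjSum]
      exact h1

/-- the identity for `q` blocks of the same type -/
theorem NN_swap [Fact q.Prime] (hq : q = 2 ∨ q = 3) (t : TY 𝓕) (τ : W → TY 𝓕) :
    have : NeZero q := ⟨(Fact.out : q.Prime).ne_zero⟩
    NN q (sty q t τ) = NN q (oty t τ) - NN q (oty (J q t) τ) := by
  intro hne
  have h1 := sum_orbits q hq (rote q : Equiv.Perm (EV (ZMod q ⊕ W))) (rote_q q) (orb q)
    (orb_rote q) (orb_surj q hq) (orb_tr q hq)
    (fun S => ind q (sty q t τ) (toG S)) (by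
      intro S
      have h2 : toG (S.map (rote q : Equiv.Perm (EV (ZMod q ⊕ W))).toEmbedding) =
          (toG S).map (rot q).toEmbedding := toG_map15 (rot q) S
      rw [h2]
      refine (ind_congr q ?_).symm
      have h3 : (fun v => sty q t τ (rot q v)) = sty q t τ := by
        funext v
        rcases v with i | w <;> rfl
      have h4 := bad_map (rot q) (sty q t τ) (toG S)
      rw [h3] at h4
      exact h4)
  unfold NN
  rw [h1, ← (Finset.sumEquiv (α := EV (Option W)) (β := Unit)).symm.toEquiv.sum_comp,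
    Fintype.sum_prod_type, ← Finset.sum_sub_distrib]
  refine Finset.sum_congr rfl fun S _ => ?_
  have hu : (univ : Finset (Finset Unit)) = {∅, {()}} := by decide
  rw [hu, sum_pair (by decide)]
  change ind q (sty q t τ) (toG (pre (orb q) (S.disjSum ∅))) * (-1) ^ (S.disjSum ∅).card +
    ind q (sty q t τ) (toG (pre (orb q) (S.disjSum {()}))) * (-1) ^ (S.disjSum {()}).card = _
  rw [card_disjSum, card_disjSum, card_empty, card_singleton, add_zero, pow_succ,
    ind_congr q (merge0 q t τ _ (toG S) (adj_pre0 q S)),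
    ind_congr q (merge1 q t τ _ (toG S) (adj_pre1 q S))]
  ring

end Swap

end Pool.Agent.TH410.KV
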