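import Mathlib
import Pool.Agent.H23.L.KV.Swap

set_option autoImplicit false
set_option linter.unusedSectionVars false

/-! The ring of block types modulo the kernel of the counting functional. -/

namespace Pool.Agent.TH410.KV

open Finset Pool.Agent.H98R2.Ev MvPolynomial

variable {𝓕 : Fam}

section Ring

variable (𝓕) (q : ℕ) [Fact q.Prime]

open Classical in
/-- the signed count attached to a monomial -/
noncomputable def Nm (m : TY 𝓕 →₀ ℕ) : ZMod q :=
  NN (V := Σ t : m.support, Fin (m t.1)) q (fun v => v.1.1)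

/-- polynomials in the block types -/
abbrev RR : Type := MvPolynomial (TY 𝓕) (ZMod q)

/-- the counting functional -/
noncomputable def LL : RR 𝓕 q →ₗ[ZMod q] ZMod q :=
  (MvPolynomial.basisMonomials (TY 𝓕) (ZMod q)).constr (ZMod q) (Nm 𝓕 q)

theorem LL_monomial (m : TY 𝓕 →₀ ℕ) : LL 𝓕 q (monomial m 1) = Nm 𝓕 q m := by
  have h := (MvPolynomial.basisMonomials (TY 𝓕) (ZMod q)).constr_basis (ZMod q) (Nm 𝓕 q) m
  rwa [MvPolynomial.coe_basisMonomials] at h

variable {𝓕}

theorem Nm_eq {V : Type} [Fintype V] [DecidableEq V] (τ : V → TY 𝓕) :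
    Nm 𝓕 q (∑ v, Finsupp.single (τ v) 1) = NN q τ := by
  classical
  set m : TY 𝓕 →₀ ℕ := ∑ v, Finsupp.single (τ v) 1 with hm
  have hmt : ∀ t, m t = Fintype.card {v // τ v = t} := by
    intro t
    rw [hm, Finsupp.finsetSum_apply, Fintype.card_subtype, Finset.card_filter]
    refine Finset.sum_congr rfl fun v _ => ?_
    rw [Finsupp.single_apply]
  have hsup : ∀ v, τ v ∈ m.support := by
    intro v
    rw [Finsupp.mem_support_iff, hmt]
    have : Nonempty {v' // τ v' = τ v} := ⟨⟨v, rfl⟩⟩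
    exact Fintype.card_ne_zero
  let f : V → m.support := fun v => ⟨τ v, hsup v⟩
  have hcard : ∀ t : m.support, Fintype.card {v // f v = t} = m t.1 := by
    intro t
    rw [hmt]
    refine Fintype.card_congr (Equiv.subtypeEquivRight fun v => ?_)
    rw [Subtype.ext_iff]
  let e : V ≃ Σ t : m.support, Fin (m t.1) :=
    (Equiv.sigmaFiberEquiv f).symm.trans
      (Equiv.sigmaCongrRight fun t => Fintype.equivFinOfCardEq (hcard t))
  have he : ∀ v, (e v).1.1 = τ v := fun v => rfl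
  unfold Nm
  rw [← NN_iso q e]
  congr 1

theorem LL_prod {V : Type} [Fintype V] [DecidableEq V] (τ : V → TY 𝓕) :
    LL 𝓕 q (∏ v, X (τ v)) = NN q τ := by
  have h : (∏ v, X (τ v) : RR 𝓕 q) = monomial (∑ v, Finsupp.single (τ v) 1) 1 :=
    (monomial_sum_one _ _).symm
  rw [h, LL_monomial, Nm_eq]

theorem monomial_prod (m : TY 𝓕 →₀ ℕ) :
    ∃ (V : Type) (_ : Fintype V) (_ : DecidableEq V) (τ : V → TY 𝓕),
      (monomial m 1 : RR 𝓕 q) = ∏ v, X (τ v) := by
  classical
  refine ⟨Σ t : m.support, Fin (m t.1), inferInstance, inferInstance, fun v => v.1.1, ?_⟩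
  rw [Fintype.prod_sigma]
  simp only [prod_const, card_univ, Fintype.card_fin]
  rw [Finset.prod_coe_sort m.support (fun t => (X t : RR 𝓕 q) ^ m t), prod_X_pow_eq_monomial]

/-- a polynomial which the functional kills together with all its multiples of products -/
theorem LL_mul_eq_zero (p : RR 𝓕 q)
    (h : ∀ (V : Type) [Fintype V] [DecidableEq V] (τ : V → TY 𝓕),
      LL 𝓕 q ((∏ v, X (τ v)) * p) = 0) (r : RR 𝓕 q) : LL 𝓕 q (r * p) = 0 := by
  induction r using MvPolynomial.induction_on' with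
  | monomial m a =>
    obtain ⟨V, i1, i2, τ, hτ⟩ := monomial_prod (𝓕 := 𝓕) q m
    have h1 : (monomial m a : RR 𝓕 q) = a • ∏ v, X (τ v) := by
      rw [← hτ, smul_monomial, smul_eq_mul, mul_one]
    rw [h1, smul_mul_assoc, map_smul, h, smul_zero]
  | add p' q' h1 h2 => rw [add_mul, map_add, h1, h2, add_zero]

variable (𝓕)

/-- the ideal of the polynomials killed with all multiples -/
noncomputable def Id : Ideal (RR 𝓕 q) where
  carrier := {p | ∀ r, LL 𝓕 q (r * p) = 0}
  add_mem' := by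
    intro a b ha hb r
    rw [mul_add, map_add, ha, hb, add_zero]
  zero_mem' := by
    intro r
    rw [mul_zero, map_zero]
  smul_mem' := by
    intro c x hx r
    rw [smul_eq_mul, ← mul_assoc]
    exact hx _

/-- the ring of block types -/
abbrev AA : Type := RR 𝓕 q ⧸ Id 𝓕 q

variable {𝓕}

/-- the class of a block type -/
noncomputable def cl (t : TY 𝓕) : AA 𝓕 q := Ideal.Quotient.mk (Id 𝓕 q) (X t)

theorem LL_congr {p p' : RR 𝓕 q}
    (h : Ideal.Quotient.mk (Id 𝓕 q) p = Ideal.Quotient.mk (Id 𝓕 q) p') :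
    LL 𝓕 q p = LL 𝓕 q p' := by
  rw [Ideal.Quotient.eq] at h
  have h1 := h 1
  rwa [one_mul, map_sub, sub_eq_zero] at h1

theorem cl_pow (hq : q = 2 ∨ q = 3) (t : TY 𝓕) :
    cl q t ^ q = cl q t - cl q (J q t) := by
  have hne : NeZero q := ⟨(Fact.out : q.Prime).ne_zero⟩
  unfold cl
  rw [← map_pow, ← map_sub, Ideal.Quotient.eq]
  intro r
  refine LL_mul_eq_zero q _ (fun V _ _ τ => ?_) r
  have h1 : (∏ v, X (τ v)) * (X t : RR 𝓕 q) ^ q = ∏ v, X (sty q t τ v) := by
    rw [Fintype.prod_sum_type]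
    simp only [sty, Sum.elim_inl, Sum.elim_inr, prod_const, card_univ, ZMod.card]
    rw [mul_comm]
  have h2 : ∀ t : TY 𝓕, (∏ v, X (τ v)) * (X t : RR 𝓕 q) = ∏ v, X (oty t τ v) := by
    intro t
    rw [Fintype.prod_option]
    simp only [oty, Option.elim]
    rw [mul_comm]
  rw [mul_sub, mul_sub, h1, h2, h2, map_sub, map_sub, LL_prod, LL_prod, LL_prod,
    NN_swap q hq t τ]
  ring

theorem cl_zero (t : TY 𝓕) (F : 𝓕) (hF : univ ∈ t.1 F) : cl q t = 0 := by
  unfold cl
  rw [Ideal.Quotient.eq_zero_iff_mem]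
  intro r
  refine LL_mul_eq_zero q _ (fun V _ _ τ => ?_) r
  have h2 : (∏ v, X (τ v)) * (X t : RR 𝓕 q) = ∏ v, X (oty t τ v) := by
    rw [Fintype.prod_option]
    simp only [oty, Option.elim]
    rw [mul_comm]
  rw [h2, LL_prod]
  unfold NN
  refine Finset.sum_eq_zero fun S _ => ?_
  have h3 : Bad (oty t τ) (toG S) := bad_of_univ _ _ none F hF
  unfold ind
  rw [if_pos h3, zero_mul]

theorem LL_X (t : TY 𝓕) (ht : ∀ F : 𝓕, univ ∉ t.1 F) : LL 𝓕 q (X t) = 1 := by
  have h1 : (X t : RR 𝓕 q) = ∏ _v : Unit, X t := by simp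
  rw [h1, LL_prod]
  unfold NN
  have h2 : IsEmpty (EV Unit) := ⟨fun e => e.2 (by
    rcases e with ⟨e, he⟩
    induction e using Sym2.ind with
    | _ a b => exact Sym2.mk_isDiag_iff.2 rfl)⟩
  rw [Fintype.sum_unique]
  unfold ind
  rw [if_neg (fun h => by
    obtain ⟨F, hF⟩ := (bad_unit t _).1 h
    exact ht F hF)]
  have h3 : (default : Finset (EV Unit)) = ∅ := Subsingleton.elim _ _
  rw [h3]
  simp

end Ring

end Pool.Agent.TH410.KV
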