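import Mathlib
import Pool.Agent.H23.L.KV.Ring
import Pool.Agent.H23.L.KV.Alg

set_option autoImplicit false
set_option linter.unusedSectionVars false

/-! The linear functional on the ring of types, iterated joins, independent blocks. -/

namespace Pool.Agent.TH410.KV

open Finset Pool.Agent.H98R2.Ev MvPolynomial

variable {𝓕 : Fam}

section Lb

variable (q : ℕ) [Fact q.Prime]

theorem nontrivial_AA (t : TY 𝓕) (ht : ∀ F : 𝓕, univ ∉ t.1 F) : Nontrivial (AA 𝓕 q) := by
  refine ⟨⟨cl q t, 0, fun h => ?_⟩⟩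
  have h1 : Ideal.Quotient.mk (Id 𝓕 q) (X t) = Ideal.Quotient.mk (Id 𝓕 q) 0 := by
    rw [map_zero]; exact h
  have h2 := LL_congr q h1
  rw [LL_X q t ht, map_zero] at h2
  exact one_ne_zero h2

theorem charP_AA [Nontrivial (AA 𝓕 q)] : CharP (AA 𝓕 q) q :=
  charP_of_injective_algebraMap (algebraMap (ZMod q) (AA 𝓕 q)).injective q

variable (𝓕)

/-- a representative -/
noncomputable def rp (a : AA 𝓕 q) : RR 𝓕 q :=
  Function.surjInv (Ideal.Quotient.mk_surjective (I := Id 𝓕 q)) a

theorem mk_rp (a : AA 𝓕 q) : Ideal.Quotient.mk (Id 𝓕 q) (rp 𝓕 q a) = a :=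
  Function.surjInv_eq _ a

/-- the functional on the quotient -/
noncomputable def Lb : AA 𝓕 q →ₗ[ZMod q] ZMod q where
  toFun a := LL 𝓕 q (rp 𝓕 q a)
  map_add' a b := by
    rw [← map_add]
    apply LL_congr
    rw [map_add, mk_rp, mk_rp, mk_rp]
  map_smul' c a := by
    rw [RingHom.id_apply, ← map_smul]
    apply LL_congr
    rw [mk_rp]
    have h : Ideal.Quotient.mk (Id 𝓕 q) (c • rp 𝓕 q a) =
        c • Ideal.Quotient.mk (Id 𝓕 q) (rp 𝓕 q a) := rfl
    rw [h, mk_rp]

variable {𝓕}

theorem Lb_mk (p : RR 𝓕 q) : Lb 𝓕 q (Ideal.Quotient.mk (Id 𝓕 q) p) = LL 𝓕 q p := by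
  apply LL_congr
  rw [mk_rp]

theorem Lb_cl (t : TY 𝓕) (ht : ∀ F : 𝓕, univ ∉ t.1 F) : Lb 𝓕 q (cl q t) = 1 := by
  unfold cl
  rw [Lb_mk, LL_X q t ht]

theorem Lb_prod {V : Type} [Fintype V] [DecidableEq V] (τ : V → TY 𝓕) :
    Lb 𝓕 q (∏ v, cl q (τ v)) = NN q τ := by
  unfold cl
  rw [← map_prod, Lb_mk, LL_prod]

theorem De_cl [CharP (AA 𝓕 q) q] (hq : q = 2 ∨ q = 3) (n : ℕ) (t : TY 𝓕) :
    (De q ^ n) (cl q t) = cl q ((J q)^[n] t) := by
  induction n generalizing t with
  | zero => simp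
  | succ n ih =>
    rw [pow_succ, Module.End.mul_apply, Function.iterate_succ_apply, ← ih]
    congr 1
    rw [De_apply, cl_pow q hq]
    ring

end Lb

section Iter

variable (q : ℕ) [NeZero q]

/-- membership in iterated joins -/
theorem mem_iter (n : ℕ) (t : TY 𝓕) (F : 𝓕) (U : Finset (Fin F.1.1)) :
    U ∈ ((J q)^[n] t).1 F ↔
      ∃ col : Fin F.1.1 → (Fin n → ZMod q), ∀ a, U.filter (fun x => col x = a) ∈ t.1 F := by
  classical
  induction n generalizing t U with
  | zero =>
    simp only [Function.iterate_zero, id]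
    constructor
    · intro h
      refine ⟨fun _ => default, fun a => ?_⟩
      have : U.filter (fun _ => (default : Fin 0 → ZMod q) = a) = U := by
        rw [Finset.filter_true_of_mem]
        intro x _
        exact Subsingleton.elim _ _
      rw [this]
      exact h
    · rintro ⟨col, h⟩
      have h1 := h default
      have : U.filter (fun x => col x = default) = U := by
        rw [Finset.filter_true_of_mem]
        intro x _
        exact Subsingleton.elim _ _
      rwa [this] at h1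
  | succ n ih =>
    rw [Function.iterate_succ_apply, ih]
    constructor
    · rintro ⟨col, h⟩
      choose ρ hρ using h
      refine ⟨fun x => Fin.cons (ρ (col x) x) (col x), fun a => ?_⟩
      have h1 := hρ (Fin.tail a) (a 0)
      convert h1 using 1
      ext x
      simp only [mem_filter]
      constructor
      · rintro ⟨hx, hc⟩
        have h2 : col x = Fin.tail a := by rw [← hc, Fin.tail_cons]
        have h3 : ρ (col x) x = a 0 := by rw [← hc, Fin.cons_zero]
        exact ⟨⟨hx, h2⟩, by rw [← h2, h3]⟩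
      · rintro ⟨⟨hx, h2⟩, h3⟩
        refine ⟨hx, ?_⟩
        rw [h2, h3, Fin.cons_self_tail]
    · rintro ⟨col, h⟩
      refine ⟨fun x => Fin.tail (col x), fun a => ⟨fun x => col x 0, fun i => ?_⟩⟩
      have h1 := h (Fin.cons i a)
      convert h1 using 1
      ext x
      simp only [mem_filter]
      constructor
      · rintro ⟨⟨hx, h2⟩, h3⟩
        refine ⟨hx, ?_⟩
        rw [← h2, ← h3, Fin.cons_self_tail]
      · rintro ⟨hx, h2⟩
        refine ⟨⟨hx, ?_⟩, ?_⟩
        · rw [h2, Fin.tail_cons]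
        · rw [h2, Fin.cons_zero]

theorem iter_of_mem (n : ℕ) (t : TY 𝓕) (F : 𝓕) (U : Finset (Fin F.1.1)) (h : U ∈ t.1 F) :
    U ∈ ((J q)^[n] t).1 F := by
  classical
  rw [mem_iter]
  refine ⟨fun _ _ => 0, fun a => ?_⟩
  by_cases ha : (fun _ => 0 : Fin n → ZMod q) = a
  · rw [Finset.filter_true_of_mem (fun _ _ => ha)]
    exact h
  · rw [Finset.filter_false_of_mem (fun _ _ => ha)]
    exact (t.2 F).1

/-- the type of a large independent set -/
def xi : TY 𝓕 := ⟨fun F => {U | ∀ x ∈ U, ∀ y ∈ U, ¬ F.1.2.Adj x y}, by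
  intro F
  refine ⟨by simp, fun U W _ hUW hU hW x hx y hy => ?_⟩
  rw [mem_union] at hx hy
  rcases hx with hx | hx <;> rcases hy with hy | hy
  · exact hU x hx y hy
  · exact hUW x hx y hy
  · exact fun h => hUW y hy x hx h.symm
  · exact hW x hx y hy⟩

theorem xi_iter (n : ℕ) (F : 𝓕) :
    univ ∈ ((J q)^[n] (xi : TY 𝓕)).1 F ↔ F.1.2.Colorable (q ^ n) := by
  classical
  rw [mem_iter]
  have hcard : Fintype.card (Fin n → ZMod q) = q ^ n := by
    rw [Fintype.card_fun, ZMod.card, Fintype.card_fin]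
  let e : (Fin n → ZMod q) ≃ Fin (q ^ n) := Fintype.equivFinOfCardEq hcard
  constructor
  · rintro ⟨col, h⟩
    refine ⟨SimpleGraph.Coloring.mk (fun x => e (col x)) ?_⟩
    intro x y hxy heq
    have h1 : col x = col y := e.injective heq
    exact h (col x) x (by simp) y (by simp [h1]) hxy
  · rintro ⟨C⟩
    refine ⟨fun x => e.symm (C x), fun a x hx y hy hxy => ?_⟩
    rw [mem_filter] at hx hy
    have h1 : C x = C y := e.symm.injective (hx.2.trans hy.2.symm)
    exact C.valid hxy h1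

end Iter

end Pool.Agent.TH410.KV
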