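import Mathlib
import Pool.Agent.H23.L.KV.Iter
import Pool.Agent.H23.L.Nb.N4c
import Pool.Agent.H23.L.Nb.N7

set_option autoImplicit false
set_option linter.unusedSectionVars false

/-! The types of the circulant blocks. -/

namespace Pool.Agent.TH410.KV

open Finset Pool.Agent.H98R2.Ev Pool.Agent.H98R2.Nb

variable {𝓕 : Fam}

section Circ

/-- the vertex sets which fit into the circulant graph `cg w T` -/
def crt {ℓ : ℕ} (w : (ZMod ℓ)ˣ) (T : Finset (Om ℓ w)) : RT 𝓕 := fun F =>
  {U | ∃ f : Fin F.1.1 → ZMod ℓ, Set.InjOn f (U : Set (Fin F.1.1)) ∧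
    ∀ x ∈ U, ∀ y ∈ U, F.1.2.Adj x y → (cg w T).Adj (f x) (f y)}

theorem crt_stable {b ℓ : ℕ} (hb : ∀ F : 𝓕, F.1.1 ≤ b) (hℓ : b ^ 2 < ℓ) (w : (ZMod ℓ)ˣ)
    (T : Finset (Om ℓ w)) : Stable (crt (𝓕 := 𝓕) w T) := by
  classical
  have hne : NeZero ℓ := ⟨by omega⟩
  intro F
  refine ⟨⟨fun _ => 0, by simp, by simp⟩, ?_⟩
  rintro U W hd hUW ⟨f, hf1, hf2⟩ ⟨g, hg1, hg2⟩
  obtain ⟨s, hs⟩ : ∃ s : ZMod ℓ, ∀ x ∈ U, ∀ y ∈ W, f x ≠ g y + s := by
    by_contra hcon
    push Not at hcon
    have h1 : (univ : Finset (ZMod ℓ)) ⊆ (U ×ˢ W).image (fun p => f p.1 - g p.2) := by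
      intro s _
      obtain ⟨x, hx, y, hy, h⟩ := hcon s
      rw [mem_image]
      exact ⟨(x, y), mem_product.2 ⟨hx, hy⟩, by simp [h]⟩
    have h2 := card_le_card h1
    rw [card_univ, ZMod.card] at h2
    have h3 := h2.trans card_image_le
    rw [card_product] at h3
    have h4 : U.card ≤ b := (card_le_univ U).trans (by rw [Fintype.card_fin]; exact hb F)
    have h5 : W.card ≤ b := (card_le_univ W).trans (by rw [Fintype.card_fin]; exact hb F)
    have h6 := Nat.mul_le_mul h4 h5
    rw [← pow_two] at h6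
    omega
  refine ⟨fun x => if x ∈ U then f x else g x + s, ?_, ?_⟩
  · intro x hx y hy hxy
    simp only [coe_union, Set.mem_union, mem_coe] at hx hy
    by_cases h1 : x ∈ U <;> by_cases h2 : y ∈ U
    · simp only [h1, h2, if_true] at hxy
      exact hf1 h1 h2 hxy
    · simp only [h1, h2, if_true, if_false] at hxy
      exact absurd hxy (hs x h1 y (hy.resolve_left h2))
    · simp only [h1, h2, if_true, if_false] at hxy
      exact absurd hxy.symm (hs y h2 x (hx.resolve_left h1))
    · simp only [h1, h2, if_false] at hxy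
      exact hg1 (hx.resolve_left h1) (hy.resolve_left h2) (add_right_cancel hxy)
  · intro x hx y hy hxy
    rw [mem_union] at hx hy
    by_cases h1 : x ∈ U <;> by_cases h2 : y ∈ U
    · simp only [h1, h2, if_true]
      exact hf2 x h1 y h2 hxy
    · exact absurd hxy (hUW x h1 y (hy.resolve_left h2))
    · exact absurd hxy.symm (hUW y h2 x (hx.resolve_left h1))
    · simp only [h1, h2, if_false]
      exact n4c_cg_add _ _ _ _ _ (hg2 x (hx.resolve_left h1) y (hy.resolve_left h2) hxy)

/-- the type of a block with the circulant graph `cg w T` -/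
def ct {b ℓ : ℕ} (hb : ∀ F : 𝓕, F.1.1 ≤ b) (hℓ : b ^ 2 < ℓ) (w : (ZMod ℓ)ˣ)
    (T : Finset (Om ℓ w)) : TY 𝓕 := ⟨crt w T, crt_stable hb hℓ w T⟩

theorem ct_empty {b ℓ : ℕ} (hb : ∀ F : 𝓕, F.1.1 ≤ b) (hℓ : b ^ 2 < ℓ) (w : (ZMod ℓ)ˣ) :
    ct hb hℓ w ∅ = (xi : TY 𝓕) := by
  have hbl : b ≤ ℓ := by nlinarith
  apply Subtype.ext
  funext F
  ext U
  constructor
  · rintro ⟨f, _, hf⟩ x hx y hy hxy
    obtain ⟨_, d, _, h⟩ := hf x hx y hy hxy
    simp at h
  · intro h
    refine ⟨fun x => ((x : ℕ) : ZMod ℓ), ?_, fun x hx y hy hxy => absurd hxy (h x hx y hy)⟩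
    intro x _ y _ hxy
    have h1 := (ZMod.natCast_eq_natCast_iff' _ _ _).1 hxy
    have h2 : (x : ℕ) < ℓ := lt_of_lt_of_le x.2 ((hb F).trans hbl)
    have h3 : (y : ℕ) < ℓ := lt_of_lt_of_le y.2 ((hb F).trans hbl)
    rw [Nat.mod_eq_of_lt h2, Nat.mod_eq_of_lt h3] at h1
    exact Fin.ext h1

end Circ

section Blocks

variable {I J' : Type} {F : I → Type} [∀ i, Field (F i)] {ℓ : J' → ℕ}
  [DecidableEq I] [DecidableEq J']

/-- the type of a block -/
def bty {b : ℕ} (I : Type) (hb : ∀ F : 𝓕, F.1.1 ≤ b) (hℓ : ∀ j, b ^ 2 < ℓ j)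
    (w : ∀ j, (ZMod (ℓ j))ˣ) (T : ∀ j, Finset (Om (ℓ j) (w j))) : I ⊕ J' → TY 𝓕 :=
  Sum.elim (fun _ => xi) (fun j => ct hb (hℓ j) (w j) (T j))

theorem has_iff_bad {b : ℕ} (hb : ∀ F : 𝓕, F.1.1 ≤ b) (hℓ : ∀ j, b ^ 2 < ℓ j)
    (hF : ∀ i, Nonempty (Fin b ↪ F i)) (w : ∀ j, (ZMod (ℓ j))ˣ) (S : Finset (EV (I ⊕ J')))
    (T : ∀ j, Finset (Om (ℓ j) (w j))) :
    Has 𝓕 (gg (F := F) w S T) ↔ Bad (bty I hb hℓ w T) (toG S) := by
  classical
  constructor
  · rintro ⟨H, hH, ⟨f⟩⟩
    refine ⟨⟨H, hH⟩, fun x => blk (f x), fun v => ?_, fun x y hxy hne => ?_⟩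
    · rcases v with i | j
      · change _ ∈ (xi : TY 𝓕).1 ⟨H, hH⟩
        intro x hx y hy hxy
        have hx' : blk (f x) = Sum.inl i := by simpa only [mem_filter, mem_univ, true_and] using hx
        have hy' : blk (f y) = Sum.inl i := by simpa only [mem_filter, mem_univ, true_and] using hy
        rcases f.toHom.map_adj hxy with h | ⟨j, u, v, h1, _, _⟩
        · change (toG S).Adj (blk (f x)) (blk (f y)) at h
          rw [hx', hy'] at h
          exact (toG S).loopless.irrefl _ h
        · change f x = _ at h1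
          rw [h1] at hx'
          simp [blk] at hx'
      · change _ ∈ crt (w j) (T j) ⟨H, hH⟩
        have hex : ∀ x, ∃ u : ZMod (ℓ j), blk (f x) = Sum.inr j → f x = Sum.inr ⟨j, u⟩ := by
          intro x
          rcases f x with ⟨i, a⟩ | ⟨j', a⟩
          · exact ⟨0, fun h => by simp [blk] at h⟩
          · by_cases h : j' = j
            · subst h
              exact ⟨a, fun _ => rfl⟩
            · exact ⟨0, fun h' => absurd (by simpa [blk] using h') h⟩
        choose g hg using hex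
        refine ⟨g, ?_, ?_⟩
        · intro x hx y hy hxy
          have hx' : blk (f x) = Sum.inr j := by simpa using hx
          have hy' : blk (f y) = Sum.inr j := by simpa using hy
          have h1 := hg x hx'
          have h2 := hg y hy'
          rw [hxy, ← h2] at h1
          exact f.injective h1
        · intro x hx y hy hxy
          have hx' : blk (f x) = Sum.inr j := by simpa only [mem_filter, mem_univ, true_and] using hx
          have hy' : blk (f y) = Sum.inr j := by simpa only [mem_filter, mem_univ, true_and] using hy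
          have e1 := hg x hx'
          have e2 := hg y hy'
          rcases f.toHom.map_adj hxy with h | ⟨j', u, v, h1, h2, h3⟩
          · change (toG S).Adj (blk (f x)) (blk (f y)) at h
            rw [hx', hy'] at h
            exact absurd h ((toG S).loopless.irrefl _)
          · change f x = _ at h1
            change f y = _ at h2
            rw [e1] at h1
            rw [e2] at h2
            have h4 := Sum.inr_injective h1
            have h5 := Sum.inr_injective h2
            cases h4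
            cases h5
            exact h3
    · rcases f.toHom.map_adj hxy with h | ⟨j, u, v, h1, h2, _⟩
      · exact h
      · exfalso
        apply hne
        change f x = _ at h1
        change f y = _ at h2
        change blk (f x) = blk (f y)
        rw [h1, h2]
        rfl
  · rintro ⟨⟨H, hH⟩, κ, h1, h2⟩
    have hφ : ∀ i, ∃ φ : Fin H.1 → F i, Function.Injective φ := by
      intro i
      obtain ⟨e⟩ := hF i
      exact ⟨fun x => e (Fin.castLE (hb ⟨H, hH⟩) x),
        fun x y h => Fin.castLE_injective _ (e.injective h)⟩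
    choose φ hφ using hφ
    have hg : ∀ j, ∃ g : Fin H.1 → ZMod (ℓ j),
        (∀ x y, κ x = Sum.inr j → κ y = Sum.inr j → g x = g y → x = y) ∧
        ∀ x y, κ x = Sum.inr j → κ y = Sum.inr j → H.2.Adj x y →
          (cg (w j) (T j)).Adj (g x) (g y) := by
      intro j
      obtain ⟨g, hg1, hg2⟩ : _ ∈ crt (w j) (T j) ⟨H, hH⟩ := h1 (Sum.inr j)
      refine ⟨g, fun x y hx hy h => hg1 ?_ ?_ h, fun x y hx hy h => hg2 x ?_ y ?_ h⟩
      · simpa using hx
      · simpa using hy
      · simpa using hx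
      · simpa using hy
    choose g hg1 hg2 using hg
    let f : Fin H.1 → VB F ℓ := fun x =>
      (κ x).elim (fun i => Sum.inl ⟨i, φ i x⟩) (fun j => Sum.inr ⟨j, g j x⟩)
    have hf : ∀ x, blk (f x) = κ x := by
      intro x
      simp only [f]
      rcases κ x with i | j <;> rfl
    have hfl : ∀ x i, κ x = Sum.inl i → f x = Sum.inl ⟨i, φ i x⟩ := by
      intro x i h
      simp only [f, h, Sum.elim_inl]
    have hfr : ∀ x j, κ x = Sum.inr j → f x = Sum.inr ⟨j, g j x⟩ := by
      intro x j h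
      simp only [f, h, Sum.elim_inr]
    refine ⟨H, hH, ⟨⟨⟨f, ?_⟩, ?_⟩⟩⟩
    · intro x y hxy
      by_cases h : κ x = κ y
      · rcases hx : κ x with i | j
        · exfalso
          have h3 : _ ∈ (xi : TY 𝓕).1 ⟨H, hH⟩ := h1 (Sum.inl i)
          exact h3 x (by simp [hx]) y (by simp [← h, hx]) hxy
        · exact Or.inr ⟨j, g j x, g j y, hfr x j hx, hfr y j (by rw [← h, hx]),
            hg2 j x y hx (by rw [← h, hx]) hxy⟩
      · refine Or.inl ?_
        rw [hf, hf]
        exact h2 x y hxy h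
    · intro x y hxy
      change f x = f y at hxy
      have h : κ x = κ y := by rw [← hf x, ← hf y, hxy]
      rcases hx : κ x with i | j
      · have hy : κ y = Sum.inl i := by rw [← h, hx]
        rw [hfl x i hx, hfl y i hy] at hxy
        have h3 := Sum.inl_injective hxy
        rw [Sigma.mk.injEq] at h3
        exact hφ i (eq_of_heq h3.2)
      · have hy : κ y = Sum.inr j := by rw [← h, hx]
        rw [hfr x j hx, hfr y j hy] at hxy
        have h3 := Sum.inr_injective hxy
        rw [Sigma.mk.injEq] at h3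
        exact hg1 j x y hx hy (eq_of_heq h3.2)

end Blocks

/-- a partition of the vertices into `h` classes which induce subgraphs of a hypercube -/
def CS {k : ℕ} (h N : ℕ) (G : SimpleGraph (Fin k)) : Prop :=
  ∃ (κ : Fin k → Fin h) (φ : Fin k → Finset (Fin N)),
    (∀ x y, κ x = κ y → φ x = φ y → x = y) ∧
    ∀ x y, κ x = κ y → G.Adj x y → (symmDiff (φ x) (φ y)).card = 1

theorem card_symmDiff_parity {α : Type} [DecidableEq α] (A B : Finset α)
    (h : (symmDiff A B).card = 1) : ¬ (Even A.card ↔ Even B.card) := by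
  have h1 : (symmDiff A B).card + 2 * (A ∩ B).card = A.card + B.card := by
    have e1 : (symmDiff A B).card = (A \ B).card + (B \ A).card := by
      rw [symmDiff_def, sup_eq_union, card_union_of_disjoint]
      exact disjoint_sdiff_sdiff
    have e2 := card_sdiff_add_card_inter A B
    have e3 := card_sdiff_add_card_inter B A
    rw [inter_comm B A] at e3
    omega
  rw [h] at h1
  intro h2
  have h3 : Even (A.card + B.card) := Nat.even_add.2 h2
  rw [← h1] at h3
  obtain ⟨r, hr⟩ := h3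
  omega

theorem CS.colorable {k h N : ℕ} {G : SimpleGraph (Fin k)} (hG : CS h N G) :
    G.Colorable (h * 2) := by
  classical
  obtain ⟨κ, φ, _, h2⟩ := hG
  have C : G.Coloring (Fin h × Bool) := SimpleGraph.Coloring.mk
    (fun x => (κ x, decide (Even (φ x).card))) (by
      intro x y hxy heq
      rw [Prod.mk.injEq] at heq
      obtain ⟨h3, h4⟩ := heq
      apply card_symmDiff_parity _ _ (h2 x y h3 hxy)
      simpa using h4)
  have h3 := C.colorable
  rwa [Fintype.card_prod, Fintype.card_fin, Fintype.card_bool] at h3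

theorem ct_univ {b : ℕ} (hb : ∀ F : 𝓕, F.1.1 ≤ b) (q : ℕ) [NeZero q] (I N : ℕ) (F : 𝓕)
    (hF : CS (q ^ I) N F.1.2) {ℓ : ℕ} [Fact ℓ.Prime] (hℓ : b ^ 2 < ℓ) (w : (ZMod ℓ)ˣ)
    (hord : 3 ^ N ≤ orderOf w) (T : Finset (Om ℓ w)) (hT : T.Nonempty) :
    univ ∈ ((J q)^[I] (ct hb hℓ w T)).1 F := by
  classical
  obtain ⟨κ, φ, h1, h2⟩ := hF
  obtain ⟨ψ, hψ1, hψ2⟩ := cube_in_circ ℓ w T hT N hord
  have hcard : Fintype.card (Fin I → ZMod q) = q ^ I := by
    rw [Fintype.card_fun, ZMod.card, Fintype.card_fin]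
  let e : (Fin I → ZMod q) ≃ Fin (q ^ I) := Fintype.equivFinOfCardEq hcard
  rw [mem_iter]
  refine ⟨fun x => e.symm (κ x), fun a => ⟨fun x => ψ (φ x), ?_, ?_⟩⟩
  · intro x hx y hy hxy
    simp only [coe_filter, mem_univ, true_and, Set.mem_ofPred_eq] at hx hy
    exact h1 x y (e.symm.injective (hx.trans hy.symm)) (hψ1 hxy)
  · intro x hx y hy hxy
    rw [mem_filter] at hx hy
    exact hψ2 _ _ (h2 x y (e.symm.injective (hx.2.trans hy.2.symm)) hxy)

end Pool.Agent.TH410.KV
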