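import Mathlib
import Pool.Agent.H23.L.KV.Cub

set_option autoImplicit false
set_option linter.unusedSectionVars false

/-! Number theory: pairs of primes, choice of the number of blocks, primes with equal values. -/

namespace Pool.Agent.TH410.KV

open Finset

/-- pairs of primes for which the construction works -/
structure PQ (p q : ℕ) : Prop where
  hp : p.Prime
  hq : q = 2 ∨ q = 3
  per : ∀ c, ∃ T, ¬ q ∣ T ∧ q ^ T ≡ 1 [MOD p ^ c]
  cop : ∀ e, Nat.Coprime (p - 1) (q ^ (q ^ e) - 1)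

theorem per_aux (p a c : ℕ) (ha : 1 ≤ a) (h : p ∣ a - 1) : a ^ (p ^ c) ≡ 1 [MOD p ^ c] := by
  have h1 : ((p : ℕ) : ℤ) ∣ (a : ℤ) - 1 := by
    have : ((a - 1 : ℕ) : ℤ) = (a : ℤ) - 1 := by push_cast [Nat.cast_sub ha]; ring
    rw [← this]
    exact_mod_cast h
  have h2 := dvd_sub_pow_of_dvd_sub h1 c
  rw [one_pow] at h2
  have h3 : ((p ^ c : ℕ) : ℤ) ∣ (a : ℤ) ^ p ^ c - 1 := by
    refine dvd_trans ?_ h2
    push_cast
    exact pow_dvd_pow _ (Nat.le_succ c)
  refine Nat.ModEq.symm ((Nat.modEq_iff_dvd).2 ?_)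
  push_cast at h3 ⊢
  exact h3

theorem pq2 : PQ 23 2 where
  hp := by norm_num
  hq := Or.inl rfl
  per := by
    intro c
    refine ⟨11 * 23 ^ c, ?_, ?_⟩
    · intro h
      rcases (Nat.Prime.dvd_mul Nat.prime_two).1 h with h | h
      · norm_num at h
      · have := Nat.Prime.dvd_of_dvd_pow Nat.prime_two h
        norm_num at this
    · rw [pow_mul]
      exact per_aux 23 _ c (by norm_num) (by norm_num)
  cop := by
    intro e
    have h1 : ∀ e : ℕ, 2 ^ (2 ^ e) % 11 = 2 ∨ 2 ^ (2 ^ e) % 11 = 4 ∨ 2 ^ (2 ^ e) % 11 = 5 ∨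
        2 ^ (2 ^ e) % 11 = 3 ∨ 2 ^ (2 ^ e) % 11 = 9 := by
      intro e
      induction e with
      | zero => norm_num
      | succ e ih =>
        have h2 : 2 ^ (2 ^ (e + 1)) = 2 ^ (2 ^ e) * 2 ^ (2 ^ e) := by
          rw [← pow_add]
          congr 1
          rw [pow_succ]
          ring
        rw [h2, Nat.mul_mod]
        rcases ih with h | h | h | h | h <;> rw [h] <;> norm_num
    have hpos : 1 ≤ 2 ^ (2 ^ e) := Nat.one_le_two_pow
    have h2 : Nat.Coprime 2 (2 ^ (2 ^ e) - 1) := by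
      rw [(Nat.prime_two).coprime_iff_not_dvd]
      intro h
      have h3 : 2 ∣ 2 ^ (2 ^ e) := dvd_pow_self 2 (by positivity)
      omega
    have h3 : Nat.Coprime 11 (2 ^ (2 ^ e) - 1) := by
      rw [(by norm_num : Nat.Prime 11).coprime_iff_not_dvd]
      intro h
      have h4 := h1 e
      omega
    have h4 := Nat.Coprime.mul_left h2 h3
    simpa using h4

theorem pq3 : PQ 2 3 where
  hp := Nat.prime_two
  hq := Or.inr rfl
  per := by
    intro c
    refine ⟨2 ^ c, ?_, ?_⟩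
    · intro h
      have := Nat.Prime.dvd_of_dvd_pow Nat.prime_three h
      norm_num at this
    · exact per_aux 2 3 c (by norm_num) (by norm_num)
  cop := by
    intro e
    simp

/-- choice of the number of blocks -/
theorem choose_M (p' Q M₀ R : ℕ) (hp : 1 ≤ p') (hQ : 1 ≤ Q) (hcop : Nat.Coprime p' Q)
    (hR : 2 * (p' * Q) + M₀ ≤ R) :
    ∃ M j M₂ : ℕ, M = M₀ + j * Q ∧ R = M + p' * M₂ ∧ M₂ ≤ M := by
  obtain ⟨k, hk1, hk2⟩ := Nat.chineseRemainder hcop R M₀
  set L := p' * Q with hL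
  have hL1 : 1 ≤ L := Nat.mul_pos hp hQ
  set k' := k % L with hk'
  have hk'L : k' < L := Nat.mod_lt _ hL1
  have hk1' : k' ≡ R [MOD p'] := by
    have h1 : k' ≡ k [MOD L] := Nat.mod_modEq _ _
    exact (h1.of_mul_right Q).trans hk1
  have hk2' : k' ≡ M₀ [MOD Q] := by
    have h1 : k' ≡ k [MOD L] := Nat.mod_modEq _ _
    rw [hL] at h1
    exact (h1.of_mul_left p').trans hk2
  set y := (R - k') / L with hy
  have hy1 : L * y ≤ R - k' := Nat.mul_div_le _ _
  have hy2 : R - k' < L * (y + 1) := Nat.lt_mul_div_succ _ hL1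
  have hLy : L * (y + 1) = L * y + L := by ring
  set M := k' + L * y with hM
  have hMR : M ≤ R := by omega
  have hRM : R < M + L := by omega
  have hM1 : M ≡ R [MOD p'] := by
    have h1 : L * y ≡ 0 [MOD p'] := by
      rw [hL, mul_assoc]
      exact (Nat.modEq_zero_iff_dvd).2 (Dvd.intro _ rfl)
    have := hk1'.add h1
    simpa using this
  have hM2 : M ≡ M₀ [MOD Q] := by
    have h1 : L * y ≡ 0 [MOD Q] := by
      rw [hL, mul_comm p' Q, mul_assoc]
      exact (Nat.modEq_zero_iff_dvd).2 (Dvd.intro _ rfl)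
    have := hk2'.add h1
    simpa using this
  have hMM₀ : M₀ ≤ M := by omega
  obtain ⟨j, hj⟩ := (Nat.modEq_iff_dvd' hMM₀).1 hM2.symm
  obtain ⟨M₂, hM₂⟩ := (Nat.modEq_iff_dvd' hMR).1 hM1
  refine ⟨M, j, M₂, ?_, ?_, ?_⟩
  · rw [mul_comm j Q]
    omega
  · omega
  · have h1 : M₂ ≤ p' * M₂ := Nat.le_mul_of_pos_left _ hp
    omega

/-- infinitely many primes `1` modulo `m` with the same value of `f` -/
theorem inf_primes {β : Type} [Finite β] (m N : ℕ) (hm : m ≠ 0) (f : ℕ → β) :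
    ∃ (z : β) (e : ℕ → ℕ), Function.Injective e ∧
      ∀ j, (e j).Prime ∧ N < e j ∧ e j ≡ 1 [MOD m] ∧ f (e j) = z := by
  classical
  set P : Set ℕ := {p | p.Prime ∧ N < p ∧ p ≡ 1 [MOD m]} with hP
  have hinf : P.Infinite := by
    intro hfin
    obtain ⟨B, hB⟩ := hfin.bddAbove
    obtain ⟨p, hp, hgt, hmod⟩ := Nat.exists_prime_gt_modEq_one (k := m) (max B N) hm
    have hmem : p ∈ P := ⟨hp, lt_of_le_of_lt (le_max_right _ _) hgt, hmod⟩
    have h1 := hB hmem
    have h2 := lt_of_le_of_lt (le_max_left B N) hgt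
    omega
  have hz : ∃ z : β, (P ∩ f ⁻¹' {z}).Infinite := by
    by_contra hcon
    push Not at hcon
    apply hinf
    have hU : P ⊆ ⋃ z : β, P ∩ f ⁻¹' {z} := by
      intro p hp
      simp only [Set.mem_iUnion]
      exact ⟨f p, hp, rfl⟩
    refine Set.Finite.subset (Set.finite_iUnion fun z => ?_) hU
    have := hcon z
    simpa [Set.not_infinite] using this
  obtain ⟨z, hz⟩ := hz
  let e := Set.Infinite.natEmbedding _ hz
  refine ⟨z, fun j => (e j : ℕ), ?_, ?_⟩
  · intro i j h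
    exact e.injective (Subtype.ext h)
  · intro j
    have h := (e j).2
    exact ⟨h.1.1, h.1.2.1, h.1.2.2, h.2⟩

/-- the total size of the field blocks -/
theorem size_sum (p c M M₂ : ℕ) (hp : 1 ≤ p) (h : M₂ ≤ M) :
    ∑ i : Fin M, p ^ (c + (if (i : ℕ) < M₂ then 1 else 0)) = p ^ c * (M + (p - 1) * M₂) := by
  have h1 : ∀ i : Fin M, p ^ (c + (if (i : ℕ) < M₂ then 1 else 0)) =
      p ^ c * (1 + (p - 1) * (if (i : ℕ) < M₂ then 1 else 0)) := by
    intro i
    split_ifs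
    · rw [pow_succ, mul_one]
      congr 1
      omega
    · simp
  rw [Finset.sum_congr rfl (fun i _ => h1 i), ← Finset.mul_sum, Finset.sum_add_distrib,
    ← Finset.mul_sum]
  congr 1
  rw [Finset.sum_const, card_univ, Fintype.card_fin, smul_eq_mul, mul_one]
  congr 1
  congr 1
  rw [Fin.sum_univ_eq_sum_range (fun k => if k < M₂ then 1 else 0) M, Finset.sum_ite]
  simp only [sum_const, smul_eq_mul, mul_one, mul_zero, add_zero]
  have : (range M).filter (fun k => k < M₂) = range M₂ := by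
    ext k
    rw [mem_filter, mem_range, mem_range]
    omega
  rw [this, card_range]

/-- an element of given order -/
theorem exists_order (l r : ℕ) [Fact l.Prime] (h : r ∣ l - 1) :
    ∃ w : (ZMod l)ˣ, orderOf w = r := by
  have hl : l.Prime := Fact.out
  have h1 : Nat.card (ZMod l)ˣ = l - 1 := by
    rw [Nat.card_eq_fintype_card, ZMod.card_units_eq_totient, Nat.totient_prime hl]
  obtain ⟨γ, hγ⟩ := IsCyclic.exists_generator (α := (ZMod l)ˣ)
  have h2 : orderOf γ = l - 1 := by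
    rw [← h1]; exact orderOf_eq_card_of_forall_mem_zpowers hγ
  obtain ⟨m, hm⟩ := h
  have hl1 : 0 < l - 1 := by have := hl.two_le; omega
  have hm0 : m ≠ 0 := by rintro rfl; omega
  refine ⟨γ ^ m, ?_⟩
  rw [orderOf_pow' γ hm0, h2, hm, Nat.gcd_eq_right (Dvd.intro_left _ rfl),
    Nat.mul_div_cancel _ (Nat.pos_of_ne_zero hm0)]

theorem finite_TY {𝓕 : Fam} {b : ℕ} (hb : ∀ F : 𝓕, F.1.1 ≤ b) : Finite (TY 𝓕) := by
  have h1 : Finite 𝓕 := by
    let g : 𝓕 → Σ k : Fin (b + 1), SimpleGraph (Fin k) := fun F =>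
      ⟨⟨F.1.1, Nat.lt_succ_of_le (hb F)⟩, F.1.2⟩
    refine Finite.of_injective g ?_
    rintro ⟨⟨k, G⟩, hF⟩ ⟨⟨k', G'⟩, hF'⟩ h
    simp only [g, Sigma.mk.injEq, Fin.mk.injEq] at h
    obtain ⟨rfl, h⟩ := h
    have := eq_of_heq h
    subst this
    rfl
  infer_instance

end Pool.Agent.TH410.KV
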